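import Pool.Agent.Helper63.XR.StA

set_option autoImplicit false

/-! Project XR (MP_c973ff_an), module BON: Bonferroni. -/

namespace Pool.Agent.Helper15.XR

open Pool.Agent.Helper63.XR Finset

theorem bon_aux {U T : Type} [Fintype U] [DecidableEq U] [DecidableEq T] (y : U → ℝ)
    (G : T → Finset U) (κ δ : ℝ) (T2 : Finset T) (F : T → ℝ) (hy : ∀ u, 0 ≤ y u)
    (hκ : ∑ u, y u ≤ κ) (hδ : ∀ t ∈ T2, ∀ u ∈ G t, y u ≤ δ)
    (hG : ∀ t ∈ T2, ∀ t' ∈ T2, t ≠ t' → (G t ∩ G t').card ≤ 1)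
    (hF : ∀ t ∈ T2, F t ≤ ∑ u ∈ G t, y u) (h0 : 0 ≤ δ) :
    ∑ t ∈ T2, F t ≤ κ + (T2.card : ℝ) ^ 2 * δ := by
  have h1 : ∑ t ∈ T2, F t ≤ ∑ t ∈ T2, ∑ u ∈ G t, y u := Finset.sum_le_sum hF
  have h2 : ∑ t ∈ T2, ∑ u ∈ G t, y u =
      ∑ u, (((T2.filter (fun t => u ∈ G t)).card : ℕ) : ℝ) * y u := by
    have e1 : ∀ t ∈ T2, ∑ u ∈ G t, y u = ∑ u, if u ∈ G t then y u else 0 := by
      intro t _
      rw [← Finset.sum_filter]
      apply Finset.sum_congr _ (fun _ _ => rfl)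
      ext u
      simp
    rw [Finset.sum_congr rfl e1, Finset.sum_comm]
    apply Finset.sum_congr rfl
    intro u _
    rw [← Finset.sum_filter, Finset.sum_const, nsmul_eq_mul]
  have h3 : ∀ u, (((T2.filter (fun t => u ∈ G t)).card : ℕ) : ℝ) * y u ≤
      y u + (((T2.filter (fun t => u ∈ G t)).offDiag.card : ℕ) : ℝ) * y u := by
    intro u
    have e1 : (T2.filter (fun t => u ∈ G t)).card ≤
        1 + (T2.filter (fun t => u ∈ G t)).offDiag.card := by
      rw [Finset.offDiag_card]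
      generalize (T2.filter (fun t => u ∈ G t)).card = n
      rcases n with _ | _ | n
      · omega
      · omega
      · have : (n + 1 + 1) * (n + 1 + 1) - (n + 1 + 1) = (n + 1 + 1) * (n + 1) := by
          rw [Nat.mul_add_one]
          omega
        rw [this]
        nlinarith
    have e2 : (((T2.filter (fun t => u ∈ G t)).card : ℕ) : ℝ) ≤
        1 + (((T2.filter (fun t => u ∈ G t)).offDiag.card : ℕ) : ℝ) := by exact_mod_cast e1
    have e3 := mul_le_mul_of_nonneg_right e2 (hy u)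
    linarith
  have h4 : ∑ u, (((T2.filter (fun t => u ∈ G t)).offDiag.card : ℕ) : ℝ) * y u =
      ∑ p ∈ T2.offDiag, ∑ u ∈ G p.1 ∩ G p.2, y u := by
    have e1 : ∀ p ∈ T2.offDiag, ∑ u ∈ G p.1 ∩ G p.2, y u =
        ∑ u, if u ∈ G p.1 ∩ G p.2 then y u else 0 := by
      intro p _
      rw [← Finset.sum_filter]
      apply Finset.sum_congr _ (fun _ _ => rfl)
      ext u
      simp
    rw [Finset.sum_congr rfl e1, Finset.sum_comm]
    apply Finset.sum_congr rfl
    intro u _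
    rw [← Finset.sum_filter, Finset.sum_const, nsmul_eq_mul]
    congr 3
    ext p
    simp only [Finset.mem_offDiag, Finset.mem_filter, Finset.mem_inter]
    tauto
  have h5 : ∑ p ∈ T2.offDiag, ∑ u ∈ G p.1 ∩ G p.2, y u ≤ (T2.card : ℝ) ^ 2 * δ := by
    have e1 : ∀ p ∈ T2.offDiag, ∑ u ∈ G p.1 ∩ G p.2, y u ≤ δ := by
      intro p hp
      obtain ⟨hp1, hp2, hp3⟩ := Finset.mem_offDiag.1 hp
      have e2 : ∑ u ∈ G p.1 ∩ G p.2, y u ≤ ((G p.1 ∩ G p.2).card : ℝ) * δ := by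
        rw [← nsmul_eq_mul]
        apply Finset.sum_le_card_nsmul
        intro u hu
        exact hδ _ hp1 u (Finset.mem_inter.1 hu).1
      have e3 : ((G p.1 ∩ G p.2).card : ℝ) ≤ 1 := by exact_mod_cast hG _ hp1 _ hp2 hp3
      have e4 := mul_le_mul_of_nonneg_right e3 h0
      linarith
    have e5 : ∑ p ∈ T2.offDiag, ∑ u ∈ G p.1 ∩ G p.2, y u ≤ (T2.offDiag.card : ℝ) * δ := by
      rw [← nsmul_eq_mul]
      exact Finset.sum_le_card_nsmul _ _ _ e1
    have e6 : (T2.offDiag.card : ℝ) ≤ (T2.card : ℝ) ^ 2 := by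
      have : T2.offDiag.card ≤ T2.card ^ 2 := by
        rw [Finset.offDiag_card, sq]
        exact Nat.sub_le _ _
      exact_mod_cast this
    exact e5.trans (mul_le_mul_of_nonneg_right e6 h0)
  have h6 : ∑ u, (((T2.filter (fun t => u ∈ G t)).card : ℕ) : ℝ) * y u ≤
      ∑ u, y u + ∑ u, (((T2.filter (fun t => u ∈ G t)).offDiag.card : ℕ) : ℝ) * y u := by
    rw [← Finset.sum_add_distrib]
    exact Finset.sum_le_sum (fun u _ => h3 u)
  rw [h4] at h6
  linarith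

theorem hBON : StBon := by
  intro U T _ _ _ y G κ δ τ s0 T1 F hy hκ hδ hG hτ hF hs1 hs2 h0
  have hlt : T1.card < s0 := by
    by_contra hcon
    push Not at hcon
    obtain ⟨T2, hsub, hcard⟩ := Finset.exists_subset_card_eq hcon
    have h1 := bon_aux y G κ δ T2 F hy hκ (fun t ht => hδ t (hsub ht))
      (fun t ht t' ht' => hG t (hsub ht) t' (hsub ht')) (fun t ht => hF t (hsub ht)) h0
    have h2 : (T2.card : ℝ) * τ ≤ ∑ t ∈ T2, F t := by
      rw [← nsmul_eq_mul]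
      exact Finset.card_nsmul_le_sum _ _ _ (fun t ht => hτ t (hsub ht))
    rw [hcard] at h1 h2
    linarith
  refine ⟨hlt, ?_⟩
  have h1 := bon_aux y G κ δ T1 F hy hκ hδ hG hF h0
  have h2 : (T1.card : ℝ) ^ 2 ≤ (s0 : ℝ) ^ 2 := by
    have : (T1.card : ℝ) ≤ s0 := by exact_mod_cast hlt.le
    exact pow_le_pow_left₀ (Nat.cast_nonneg _) this 2
  have h3 := mul_le_mul_of_nonneg_right h2 h0
  linarith

end Pool.Agent.Helper15.XR
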